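import Pool.Agent.Run7.h275.AP5
import Pool.Agent.TH188.QS.Cls

/-!
# Varieties over finite fields: one tower of point blow-ups which is a log resolution along all arcs

Let `k` be a finite field, let `X` be an integral projective variety over `k` with the function field `F`, of any
dimension and with arbitrary singularities, and let `D ⊂ X` be a closed subscheme, `D ≠ X`.  Let `X_0 = X`, and let
`X_(j+1)` be the blowing-up of `X_j` in its (finitely many) closed points with residue fields with at most `j` elements
at which `X_j` is not smooth or the inverse image of `D` is not a divisor with normal crossings.  Let `R` be a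
valuation ring of any field (of any rank, for example `k'[[t]]` for a finite extension `k'` of `k`) with a finite
residue field, and let `γ ∈ X(R)` be an arc for which the pullback of the product of the Jacobian ideal of `X` and of
the ideal of `D` is not contained in `𝔪 ^ (e + 1)`.  Then `γ` lifts to `X_j`, and at the image of the closed point of `R`
the variety `X_j` is smooth and the inverse image of `D` is a divisor with normal crossings (possibly empty), for all
`j ≥ |R/𝔪| + e`.

The schemes are described in the function field, as in earlier files: an integral projective scheme is `Proj k[M]` for a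
finitely generated submodule `M ⊆ F` (the homogeneous coordinates), with the charts `Spec k[m / w : m ∈ M]`, `w ∈ M`,
`w ≠ 0`, and its points correspond to their local rings in `F`, which are the local rings at the centres of the
valuation rings of `F` containing `k`.  A closed subscheme `D` is given by a module `N ⊆ M ^ c` of homogeneous elements
of degree `c`, whose ideal has the generators `g / w ^ c`, `g ∈ N`, on the chart `w ≠ 0`.

The proof uses the library `Pool.Agent.TH188` of the starting files (the bound of the number of quadratic transforms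
by a minor, `exists_regular_lt`; the effect of a quadratic transform on all local rings and on parameters).
-/

set_option autoImplicit false

namespace Pool.Agent.Results.MP_19ffc6_ag.LogResolutionAlongArcs

open IsLocalRing

section definitions

variable (k : Type) {F : Type} [CommRing k] [Field F] [Algebra k F]

/-- The coordinate ring `k[m / w : m ∈ M]` of the chart `w ≠ 0` of the projective scheme `Proj k[M]` with the
homogeneous coordinates `M ⊆ F`. -/
def chart (M : Submodule k F) (w : F) : Subring F :=
  (Algebra.adjoin k {z | ∃ m ∈ M, z = m / w}).toSubring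

/-- The local ring of `Spec B` at the centre of the valuation ring `V`: the fractions of elements of `B` whose
denominators are units of `V`. -/
def centreRing (V : ValuationSubring F) (B : Subring F) : Subring F where
  carrier := {x | ∃ a ∈ B, ∃ b ∈ B, b ≠ 0 ∧ b⁻¹ ∈ V ∧ x = a * b⁻¹}
  mul_mem' := (Pool.Agent.W418.LU2.lo V.toSubring B).mul_mem'
  one_mem' := (Pool.Agent.W418.LU2.lo V.toSubring B).one_mem'
  add_mem' := (Pool.Agent.W418.LU2.lo V.toSubring B).add_mem'
  zero_mem' := (Pool.Agent.W418.LU2.lo V.toSubring B).zero_mem'
  neg_mem' := (Pool.Agent.W418.LU2.lo V.toSubring B).neg_mem'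

/-- The valuation ring `V` of the function field contains the base ring. -/
def Contains (V : ValuationSubring F) : Prop := ∀ o : k, algebraMap k F o ∈ V

variable {k} in
/-- `Q` is the local ring of `Proj k[M]` at the centre of the valuation ring `V`, which lies in the chart `w ≠ 0`. -/
def IsLocalRingAt (V : ValuationSubring F) (M : Submodule k F) (Q : Subring F) : Prop :=
  ∃ w ∈ M, w ≠ 0 ∧ (∀ m ∈ M, m / w ∈ V) ∧ centreRing V (chart k M w) = Q

/-- The quadratic transform of `Q` along `V`: the local ring, at the centre of `V`, of the blowing-up of `Spec Q` in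
the centre of `V`.  (The element `z` generates the extension of the maximal ideal to `V`.) -/
def quadraticTransform (V : ValuationSubring F) (Q : Subring F) : Subring F :=
  centreRing V (Subring.closure ((Q : Set F) ∪ {t | ∃ y ∈ Q, ∃ z ∈ Q,
    V.valuation y < 1 ∧ z ≠ 0 ∧ V.valuation z < 1 ∧
      (∀ w ∈ Q, V.valuation w < 1 → V.valuation w ≤ V.valuation z) ∧ t = y / z}))

variable {k} in
/-- The ideal of the inverse image of `D` in the local ring `Q` of a scheme over `Proj k[M₀]`, where `D` is defined by
the homogeneous elements `N` of degree `c`: it is generated by the elements `g / w ^ c`, where `g ∈ N` and `w` is a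
homogeneous coordinate which does not vanish at the point. -/
def idealOf (M₀ N : Submodule k F) (c : ℕ) (Q : Subring F) : Ideal Q :=
  Ideal.span {b : Q | ∃ w ∈ M₀, w ≠ 0 ∧ (∀ m ∈ M₀, m / w ∈ Q) ∧ ∃ g ∈ N, (b : F) = g / w ^ c}

variable {k} in
/-- The local ring `Q` is regular and the inverse image of `D` is a divisor with normal crossings: its ideal is
generated by a monomial in a regular system of parameters. -/
def HasNormalCrossings (M₀ N : Submodule k F) (c : ℕ) (Q : Subring F) : Prop :=
  ∃ (_ : IsRegularLocalRing Q) (r : ℕ) (x : Fin r → Q) (α : Fin r → ℕ),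
    Ideal.span (Set.range x) = maximalIdeal Q ∧ ringKrullDim Q = r ∧
      idealOf M₀ N c Q = Ideal.span {∏ i, x i ^ α i}

variable {k} in
/-- The points of `Proj k[M]` (given by their local rings) which have residue fields with at most `d` elements and at
which `Proj k[M]` is not regular or the inverse image of `D` is not a divisor with normal crossings. -/
def badPoints (M₀ N : Submodule k F) (c d : ℕ) (M : Submodule k F) : Set (Subring F) :=
  {Q | (∃ V : ValuationSubring F, Contains k V ∧ IsLocalRingAt V M Q) ∧ ¬ HasNormalCrossings M₀ N c Q ∧
    ∃ _ : IsLocalRing Q, Finite (ResidueField Q) ∧ Nat.card (ResidueField Q) ≤ d}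

variable {k} in
/-- `Proj k[M']` is the blowing-up of `Proj k[M]` in the closed points `S`: the local ring at the centre of any
valuation ring of the function field is unchanged outside of `S`, and is replaced by its quadratic transform if the
centre is in `S`. -/
def IsBlowUp (S : Set (Subring F)) (M M' : Submodule k F) : Prop :=
  ∀ V : ValuationSubring F, Contains k V → ∀ Q, IsLocalRingAt V M Q →
    (Q ∈ S → IsLocalRingAt V M' (quadraticTransform V Q)) ∧ (Q ∉ S → IsLocalRingAt V M' Q)

/-- `δ` is an element of the Jacobian ideal of the chart `i`: for some polynomials `f l` over `k` which vanish at the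
point `x = (y j / y i)_j` and generate the ideal of `x` up to a factor which does not vanish at `x`, and some
derivations `D l` of the polynomial ring (for example partial derivatives), `δ` is the determinant of the matrix
`(D l (f k)) (x)`. -/
def IsJacobianMinor {n : ℕ} (y : Fin n → F) (i : Fin n) (δ : F) : Prop :=
  ∃ (r : ℕ) (f : Fin r → MvPolynomial (Fin n) k)
    (D : Fin r → Derivation ℤ (MvPolynomial (Fin n) k) (MvPolynomial (Fin n) k)),
    (∀ k, MvPolynomial.aeval (fun j => y j / y i) (f k) = 0) ∧
    (∀ s : MvPolynomial (Fin n) k, MvPolynomial.aeval (fun j => y j / y i) s = 0 →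
      ∃ t, MvPolynomial.aeval (fun j => y j / y i) t ≠ 0 ∧ t * s ∈ Ideal.span (Set.range f)) ∧
    δ = (Matrix.of fun k l => MvPolynomial.aeval (fun j => y j / y i) (D l (f k))).det

end definitions

open Pool.Agent.TH188.QS Pool.Agent.W418.LU2 Pool.Agent.TH188.ARC Pool.Agent.Run7.h275.AP

section

variable {k F : Type} [CommRing k] [Field F] [Algebra k F]

lemma qt_eq' (V : ValuationSubring F) (Q : Subring F) : quadraticTransform V Q = qt V.toSubring Q := by
  rw [qt_val]
  rfl

lemma isLocalRing_of {V : ValuationSubring F} {Q : Subring F} (hQV : Q ≤ V.toSubring) (hIC : IC V.toSubring Q) :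
    IsLocalRing Q ∧ ∀ b : Q, IsUnit b ↔ ¬ V.valuation (b : F) < 1 := by
  have hu : ∀ b : Q, IsUnit b ↔ ¬ V.valuation (b : F) < 1 := by
    intro b
    constructor
    · intro hb hlt
      obtain ⟨c, hc⟩ := isUnit_iff_exists_inv.1 hb
      have h1 : (b : F) * (c : F) = 1 := congrArg Subtype.val hc
      have h2 := mul_lt_one_aux' hlt ((V.valuation_le_one_iff _).2 (hQV c.2))
      rw [← map_mul, h1, map_one] at h2
      exact lt_irrefl _ h2
    · intro hlt
      have hb0 : (b : F) ≠ 0 := by
        intro h0
        apply hlt
        rw [h0, map_zero]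
        exact zero_lt_one
      rw [Pool.Agent.TH188.ARC.val_lt_iff hb0, not_not] at hlt
      exact isUnit_iff_exists_inv.2 ⟨⟨_, hIC b b.2 hb0 hlt⟩, Subtype.ext (mul_inv_cancel₀ hb0)⟩
  refine ⟨?_, hu⟩
  refine IsLocalRing.of_isUnit_or_isUnit_one_sub_self fun a => ?_
  rw [hu, hu]
  by_contra hcon
  push Not at hcon
  have h1 := Valuation.map_add_lt _ hcon.1 hcon.2
  have h2 : (a : F) + ((1 - a : Q) : F) = 1 := by
    change (a : F) + (1 - (a : F)) = 1
    ring
  rw [h2, map_one] at h1
  exact lt_irrefl _ h1

lemma rz_iff {V : ValuationSubring F} {Q : Subring F} (hQV : Q ≤ V.toSubring) (hIC : IC V.toSubring Q) (d : ℕ) :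
    Rz d V Q ↔ ∃ _ : IsLocalRing Q, Finite (ResidueField Q) ∧ Nat.card (ResidueField Q) ≤ d := by
  classical
  obtain ⟨hloc, hu⟩ := isLocalRing_of hQV hIC
  have hres : ∀ b : Q, residue Q b = 0 ↔ V.valuation (b : F) < 1 := by
    intro b
    rw [residue_eq_zero_iff, mem_maximalIdeal, mem_nonunits_iff, hu, not_not]
  constructor
  · rintro ⟨q, hq2, hqd, -, hq⟩
    refine ⟨hloc, ?_⟩
    let P : Polynomial (ResidueField Q) := Polynomial.X ^ q - Polynomial.X
    have hP : P.Monic := Polynomial.monic_X_pow_sub (by
      refine lt_of_le_of_lt Polynomial.degree_X_le ?_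
      exact_mod_cast hq2)
    have hP0 : P ≠ 0 := hP.ne_zero
    have hdeg : P.natDegree = q := by
      have := Polynomial.natDegree_sub_eq_left_of_natDegree_lt (p := (Polynomial.X ^ q : Polynomial (ResidueField Q)))
        (q := Polynomial.X) (by rw [Polynomial.natDegree_X, Polynomial.natDegree_X_pow]; omega)
      rw [this, Polynomial.natDegree_X_pow]
    have hroot : ∀ z : ResidueField Q, z ∈ P.roots.toFinset := by
      intro z
      obtain ⟨b, rfl⟩ := residue_surjective z
      rw [Multiset.mem_toFinset, Polynomial.mem_roots hP0, Polynomial.IsRoot.def]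
      simp only [P, Polynomial.eval_sub, Polynomial.eval_pow, Polynomial.eval_X]
      rw [← map_pow, ← map_sub, hres]
      have := hq b b.2
      simpa using this
    have hfin : Finite (ResidueField Q) :=
      Set.finite_univ_iff.1 (P.roots.toFinset.finite_toSet.subset fun z _ => hroot z)
    refine ⟨hfin, ?_⟩
    have := Fintype.ofFinite (ResidueField Q)
    rw [Nat.card_eq_fintype_card, ← Finset.card_univ]
    calc (Finset.univ : Finset (ResidueField Q)).card ≤ P.roots.toFinset.card :=
          Finset.card_le_card fun z _ => hroot z
      _ ≤ Multiset.card P.roots := Multiset.toFinset_card_le _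
      _ ≤ P.natDegree := Polynomial.card_roots' P
      _ ≤ d := by rw [hdeg]; exact hqd
  · rintro ⟨_, hf, hc⟩
    have := Fintype.ofFinite (ResidueField Q)
    refine ⟨Nat.card (ResidueField Q), Finite.one_lt_card, hc, ?_, ?_⟩
    · have h := (hres ((Nat.card (ResidueField Q) : ℕ) : Q)).1 (by
        rw [map_natCast, Nat.card_eq_fintype_card]
        exact Nat.cast_card_eq_zero (ResidueField Q))
      simpa using h
    · intro b hb
      have h := (hres (⟨b, hb⟩ ^ Nat.card (ResidueField Q) - ⟨b, hb⟩)).1 (by
        rw [map_sub, map_pow, Nat.card_eq_fintype_card, FiniteField.pow_card, sub_self])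
      simpa using h

lemma badPoints_eq (M₀ N : Submodule k F) (c d : ℕ) (M : Submodule k F) :
    badPoints M₀ N c d M = SB (fun Q => ¬ NCr M₀ N c Q) d M := by
  ext Q
  constructor
  · rintro ⟨⟨V, hOV, hQ⟩, hreg, hR⟩
    have hQ' : LR V M Q := hQ
    obtain ⟨h1, h2⟩ := LR.facts hOV hQ'
    exact ⟨V, hOV, hQ', (rz_iff h1 h2 d).2 hR, hreg⟩
  · rintro ⟨V, hOV, hQ, hR, hreg⟩
    obtain ⟨h1, h2⟩ := LR.facts hOV hQ
    exact ⟨⟨V, hOV, hQ⟩, hreg, (rz_iff h1 h2 d).1 hR⟩

end

/-- **The tower of point blow-ups of a pair.**  Let `k` be a finite field, let `F` be a field over `k`, let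
`X = Proj k[y_1, …, y_n]` be the projective variety with the function field `k(y_i / y_j)` and the homogeneous coordinates
`y_i ∈ F^*`, and let `D ≠ X` be the closed subscheme with the equations `N` of degree `c`.  There are finitely generated
modules `M j` such that the varieties `X_j = Proj k[M j]` have the following properties.

* `X_0 = X`, and `X_(j+1)` is the blowing-up of `X_j` in the closed points with residue fields with at most `j` elements at
which `X_j` is not regular (equivalently, not smooth over `k`) or the inverse image of `D` is not a divisor with normal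
crossings; there are finitely many such points.
* Let `R` be a valuation ring of any field `L`, with a finite residue field, and let `γ` be a point of `X` with values
in `R` (in the chart `i`), such that for some element `δ` of the Jacobian ideal and some local equation `a` of `D` the
image of `δ a` is outside of the power `𝔪 ^ (e + 1)` of the maximal ideal of `R`.  Then for all `j ≥ |R/𝔪| + e` there is a
point of `X_j` with the local ring `Q`, at which `X_j` is regular and the inverse image of `D` is a divisor with normal
crossings, and a lift `γ' : Q → R` of `γ` which is a local homomorphism. -/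
theorem result (k F : Type) [Field k] [Finite k] [Field F] [Algebra k F] (n : ℕ) (hn : 0 < n) (y : Fin n → F)
    (hy : ∀ i, y i ≠ 0) (c : ℕ) (N : Submodule k F) (hN : N ≠ ⊥)
    (hNy : N ≤ Submodule.span k (Set.range y) ^ c) :
    ∃ M : ℕ → Submodule k F, M 0 = Submodule.span k (Set.range y) ∧
      (∀ j, (M j).FG ∧ (badPoints (Submodule.span k (Set.range y)) N c j (M j)).Finite ∧
        IsBlowUp (badPoints (Submodule.span k (Set.range y)) N c j (M j)) (M j) (M (j + 1))) ∧
      ∀ (L : Type) [Field L] (R : ValuationSubring L), Finite (ResidueField R) → ∀ (i : Fin n)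
        (γ : chart k (Submodule.span k (Set.range y)) (y i) →+* R)
        (δ a : chart k (Submodule.span k (Set.range y)) (y i)), IsJacobianMinor k y i (δ : F) →
        (∃ g ∈ N, (a : F) = g / y i ^ c) →
        ∀ e : ℕ, γ (δ * a) ∉ maximalIdeal R ^ (e + 1) → ∀ j, Nat.card (ResidueField R) + e ≤ j →
        ∃ (V : ValuationSubring F) (Q : Subring F), Contains k V ∧ IsLocalRingAt V (M j) Q ∧
          HasNormalCrossings (Submodule.span k (Set.range y)) N c Q ∧
          ∃ (h : chart k (Submodule.span k (Set.range y)) (y i) ≤ Q) (γ' : Q →+* R),
            (∀ b : chart k (Submodule.span k (Set.range y)) (y i), γ' ⟨b, h b.2⟩ = γ b) ∧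
              ∀ b : Q, IsUnit (γ' b) → IsUnit b := by
  have : Module.Finite ℤ k := Module.Finite.of_finite
  obtain ⟨M, h0, hk, hR⟩ := main_nc (O := k) hn y hy hN hNy
  refine ⟨M, h0, fun j => ?_, hR⟩
  obtain ⟨h1, h2, h3⟩ := hk j
  rw [badPoints_eq]
  refine ⟨h1, h2, fun V hV Q hQ => ?_⟩
  rw [qt_eq']
  exact h3 V hV Q hQ

end Pool.Agent.Results.MP_19ffc6_ag.LogResolutionAlongArcs
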