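import Pool.Agent.Run7.h275.AP3
import Pool.Agent.TH188.QS.Cls

/-!
# One tower of point blow-ups which resolves all points with values in valuation rings with finite residue fields

Let `O` be a regular domain which is finitely generated over `ℤ` (for example `ℤ`, the ring of integers of a number
field, or a finite field), and let `X` be an integral projective `O`-scheme with the function field `F`, of any
dimension and with arbitrary singularities.  Let `X_0 = X`, and let `X_(k+1)` be the blowing-up of `X_k` in its
(finitely many) closed points which are not regular and whose residue fields have at most `k` elements.  Let `R` be a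
valuation ring of any field (of any characteristic and any rank, for example the ring of integers of any local field,
with arbitrary ramification) with a finite residue field, and let `γ ∈ X(R)` be a point for which the pullback to `R`
of the Jacobian ideal of `X` over `O` is not contained in the power `𝔪 ^ (e + 1)` of the maximal ideal.  Then `γ` lifts
to `X_k` and `X_k` is regular at the image of the closed point of `R`, for all `k ≥ |R/𝔪| + e`.

The schemes are described in the function field, as in earlier files: an integral projective `O`-scheme is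
`Proj O[M]` for a finitely generated `O`-submodule `M ⊆ F` (the homogeneous coordinates), with the charts
`Spec O[m / w : m ∈ M]`, `w ∈ M`, `w ≠ 0`, and its points correspond to their local rings in `F`, which are the local
rings at the centres of the valuation rings of `F` containing `O`.

The proof uses the library `Pool.Agent.TH188.ARC` of the starting files (the bound of the number of quadratic
transforms by a minor, `exists_regular_lt`; the effect of a quadratic transform on all local rings; finiteness of
the centres), made for models of regular varieties over number fields.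
-/

set_option autoImplicit false

namespace Pool.Agent.Results.MP_4d1008_ag.TowerOfPointBlowUps

open IsLocalRing

section definitions

variable (O : Type) {F : Type} [CommRing O] [Field F] [Algebra O F]

/-- The coordinate ring `O[m / w : m ∈ M]` of the chart `w ≠ 0` of the projective scheme `Proj O[M]` with the
homogeneous coordinates `M ⊆ F`. -/
def chart (M : Submodule O F) (w : F) : Subring F :=
  (Algebra.adjoin O {z | ∃ m ∈ M, z = m / w}).toSubring

/-- The local ring of `Spec B` at the centre of the valuation ring `V`: the fractions of elements of `B` whose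
denominators are units of `V`. -/
def centreRing (V : ValuationSubring F) (B : Subring F) : Subring F where
  carrier := {x | ∃ a ∈ B, ∃ b ∈ B, b ≠ 0 ∧ b⁻¹ ∈ V ∧ x = a * b⁻¹}
  mul_mem' := (Pool.Agent.W418.LU2.lo V.toSubring B).mul_mem'
  one_mem' := (Pool.Agent.W418.LU2.lo V.toSubring B).one_mem'
  add_mem' := (Pool.Agent.W418.LU2.lo V.toSubring B).add_mem'
  zero_mem' := (Pool.Agent.W418.LU2.lo V.toSubring B).zero_mem'
  neg_mem' := (Pool.Agent.W418.LU2.lo V.toSubring B).neg_mem'

/-- The valuation ring `V` of the function field contains the base ring. -/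
def Contains (V : ValuationSubring F) : Prop := ∀ o : O, algebraMap O F o ∈ V

variable {O} in
/-- `Q` is the local ring of `Proj O[M]` at the centre of the valuation ring `V`, which lies in the chart `w ≠ 0`. -/
def IsLocalRingAt (V : ValuationSubring F) (M : Submodule O F) (Q : Subring F) : Prop :=
  ∃ w ∈ M, w ≠ 0 ∧ (∀ m ∈ M, m / w ∈ V) ∧ centreRing V (chart O M w) = Q

/-- The quadratic transform of `Q` along `V`: the local ring, at the centre of `V`, of the blowing-up of `Spec Q` in
the centre of `V`.  (The element `z` generates the extension of the maximal ideal to `V`.) -/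
def quadraticTransform (V : ValuationSubring F) (Q : Subring F) : Subring F :=
  centreRing V (Subring.closure ((Q : Set F) ∪ {t | ∃ y ∈ Q, ∃ z ∈ Q,
    V.valuation y < 1 ∧ z ≠ 0 ∧ V.valuation z < 1 ∧
      (∀ w ∈ Q, V.valuation w < 1 → V.valuation w ≤ V.valuation z) ∧ t = y / z}))

variable {O} in
/-- The points of `Proj O[M]` (given by their local rings) which are not regular and have residue fields with at most
`d` elements. -/
def singularPoints (d : ℕ) (M : Submodule O F) : Set (Subring F) :=
  {Q | (∃ V : ValuationSubring F, Contains O V ∧ IsLocalRingAt V M Q) ∧ ¬ IsRegularLocalRing Q ∧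
    ∃ _ : IsLocalRing Q, Finite (ResidueField Q) ∧ Nat.card (ResidueField Q) ≤ d}

variable {O} in
/-- `Proj O[M']` is the blowing-up of `Proj O[M]` in the closed points `S`: the local ring at the centre of any
valuation ring of the function field is unchanged outside of `S`, and is replaced by its quadratic transform if the
centre is in `S`. -/
def IsBlowUp (S : Set (Subring F)) (M M' : Submodule O F) : Prop :=
  ∀ V : ValuationSubring F, Contains O V → ∀ Q, IsLocalRingAt V M Q →
    (Q ∈ S → IsLocalRingAt V M' (quadraticTransform V Q)) ∧ (Q ∉ S → IsLocalRingAt V M' Q)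

/-- `δ` is an element of the Jacobian ideal of the chart `i`: for some polynomials `f k` over `O` which vanish at the
point `x = (y j / y i)_j` and generate the ideal of `x` up to a factor which does not vanish at `x`, and some
derivations `D l` of the polynomial ring (for example partial derivatives), `δ` is the determinant of the matrix
`(D l (f k)) (x)`. -/
def IsJacobianMinor {n : ℕ} (y : Fin n → F) (i : Fin n) (δ : F) : Prop :=
  ∃ (r : ℕ) (f : Fin r → MvPolynomial (Fin n) O)
    (D : Fin r → Derivation ℤ (MvPolynomial (Fin n) O) (MvPolynomial (Fin n) O)),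
    (∀ k, MvPolynomial.aeval (fun j => y j / y i) (f k) = 0) ∧
    (∀ s : MvPolynomial (Fin n) O, MvPolynomial.aeval (fun j => y j / y i) s = 0 →
      ∃ t, MvPolynomial.aeval (fun j => y j / y i) t ≠ 0 ∧ t * s ∈ Ideal.span (Set.range f)) ∧
    δ = (Matrix.of fun k l => MvPolynomial.aeval (fun j => y j / y i) (D l (f k))).det

end definitions

open Pool.Agent.TH188.QS Pool.Agent.W418.LU2 Pool.Agent.TH188.ARC Pool.Agent.Run7.h275.AP

section

variable {O F : Type} [CommRing O] [Field F] [Algebra O F]

lemma qt_eq' (V : ValuationSubring F) (Q : Subring F) : quadraticTransform V Q = qt V.toSubring Q := by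
  rw [qt_val]
  rfl

lemma isLocalRing_of {V : ValuationSubring F} {Q : Subring F} (hQV : Q ≤ V.toSubring) (hIC : IC V.toSubring Q) :
    IsLocalRing Q ∧ ∀ b : Q, IsUnit b ↔ ¬ V.valuation (b : F) < 1 := by
  have hu : ∀ b : Q, IsUnit b ↔ ¬ V.valuation (b : F) < 1 := by
    intro b
    constructor
    · intro hb hlt
      obtain ⟨c, hc⟩ := isUnit_iff_exists_inv.1 hb
      have h1 : (b : F) * (c : F) = 1 := congrArg Subtype.val hc
      have h2 := mul_lt_one_aux' hlt ((V.valuation_le_one_iff _).2 (hQV c.2))
      rw [← map_mul, h1, map_one] at h2
      exact lt_irrefl _ h2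
    · intro hlt
      have hb0 : (b : F) ≠ 0 := by
        intro h0
        apply hlt
        rw [h0, map_zero]
        exact zero_lt_one
      rw [Pool.Agent.TH188.ARC.val_lt_iff hb0, not_not] at hlt
      exact isUnit_iff_exists_inv.2 ⟨⟨_, hIC b b.2 hb0 hlt⟩, Subtype.ext (mul_inv_cancel₀ hb0)⟩
  refine ⟨?_, hu⟩
  refine IsLocalRing.of_isUnit_or_isUnit_one_sub_self fun a => ?_
  rw [hu, hu]
  by_contra hcon
  push Not at hcon
  have h1 := Valuation.map_add_lt _ hcon.1 hcon.2
  have h2 : (a : F) + ((1 - a : Q) : F) = 1 := by
    change (a : F) + (1 - (a : F)) = 1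
    ring
  rw [h2, map_one] at h1
  exact lt_irrefl _ h1

lemma rz_iff {V : ValuationSubring F} {Q : Subring F} (hQV : Q ≤ V.toSubring) (hIC : IC V.toSubring Q) (d : ℕ) :
    Rz d V Q ↔ ∃ _ : IsLocalRing Q, Finite (ResidueField Q) ∧ Nat.card (ResidueField Q) ≤ d := by
  classical
  obtain ⟨hloc, hu⟩ := isLocalRing_of hQV hIC
  have hres : ∀ b : Q, residue Q b = 0 ↔ V.valuation (b : F) < 1 := by
    intro b
    rw [residue_eq_zero_iff, mem_maximalIdeal, mem_nonunits_iff, hu, not_not]
  constructor
  · rintro ⟨q, hq2, hqd, -, hq⟩
    refine ⟨hloc, ?_⟩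
    let P : Polynomial (ResidueField Q) := Polynomial.X ^ q - Polynomial.X
    have hP : P.Monic := Polynomial.monic_X_pow_sub (by
      refine lt_of_le_of_lt Polynomial.degree_X_le ?_
      exact_mod_cast hq2)
    have hP0 : P ≠ 0 := hP.ne_zero
    have hdeg : P.natDegree = q := by
      have := Polynomial.natDegree_sub_eq_left_of_natDegree_lt (p := (Polynomial.X ^ q : Polynomial (ResidueField Q)))
        (q := Polynomial.X) (by rw [Polynomial.natDegree_X, Polynomial.natDegree_X_pow]; omega)
      rw [this, Polynomial.natDegree_X_pow]
    have hroot : ∀ z : ResidueField Q, z ∈ P.roots.toFinset := by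
      intro z
      obtain ⟨b, rfl⟩ := residue_surjective z
      rw [Multiset.mem_toFinset, Polynomial.mem_roots hP0, Polynomial.IsRoot.def]
      simp only [P, Polynomial.eval_sub, Polynomial.eval_pow, Polynomial.eval_X]
      rw [← map_pow, ← map_sub, hres]
      have := hq b b.2
      simpa using this
    have hfin : Finite (ResidueField Q) :=
      Set.finite_univ_iff.1 (P.roots.toFinset.finite_toSet.subset fun z _ => hroot z)
    refine ⟨hfin, ?_⟩
    have := Fintype.ofFinite (ResidueField Q)
    rw [Nat.card_eq_fintype_card, ← Finset.card_univ]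
    calc (Finset.univ : Finset (ResidueField Q)).card ≤ P.roots.toFinset.card :=
          Finset.card_le_card fun z _ => hroot z
      _ ≤ Multiset.card P.roots := Multiset.toFinset_card_le _
      _ ≤ P.natDegree := Polynomial.card_roots' P
      _ ≤ d := by rw [hdeg]; exact hqd
  · rintro ⟨_, hf, hc⟩
    have := Fintype.ofFinite (ResidueField Q)
    refine ⟨Nat.card (ResidueField Q), Finite.one_lt_card, hc, ?_, ?_⟩
    · have h := (hres ((Nat.card (ResidueField Q) : ℕ) : Q)).1 (by
        rw [map_natCast, Nat.card_eq_fintype_card]
        exact Nat.cast_card_eq_zero (ResidueField Q))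
      simpa using h
    · intro b hb
      have h := (hres (⟨b, hb⟩ ^ Nat.card (ResidueField Q) - ⟨b, hb⟩)).1 (by
        rw [map_sub, map_pow, Nat.card_eq_fintype_card, FiniteField.pow_card, sub_self])
      simpa using h

lemma singularPoints_eq (d : ℕ) (M : Submodule O F) : singularPoints d M = Sg d M := by
  ext Q
  constructor
  · rintro ⟨⟨V, hOV, hQ⟩, hreg, hR⟩
    have hQ' : LR V M Q := hQ
    obtain ⟨h1, h2⟩ := LR.facts hOV hQ'
    exact ⟨V, hOV, hQ', (rz_iff h1 h2 d).2 hR, hreg⟩
  · rintro ⟨V, hOV, hQ, hR, hreg⟩
    obtain ⟨h1, h2⟩ := LR.facts hOV hQ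
    exact ⟨⟨V, hOV, hQ⟩, hreg, (rz_iff h1 h2 d).1 hR⟩

end

/-- **The tower of point blow-ups.**  Let `O` be a regular domain, finitely generated over `ℤ`, let `F` be a field over
`O`, and let `X = Proj O[y_1, …, y_n]` be the projective scheme with the function field `F` and the homogeneous
coordinates `y_i ∈ F^*`.  There are finitely generated modules `M k` such that the schemes `X_k = Proj O[M k]` have the
following properties.

* `X_0 = X`, and `X_(k+1)` is the blowing-up of `X_k` in the points which are not regular and have residue fields with
at most `k` elements; there are finitely many such points.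
* Let `R` be a valuation ring of any field `L`, with a finite residue field, and let `γ` be a point of `X` with values
in `R` (in the chart `i`), such that some element `δ` of the Jacobian ideal has an image outside of the power
`𝔪 ^ (e + 1)` of the maximal ideal of `R`.  Then for all `k ≥ |R/𝔪| + e` there is a point of `X_k`, with a regular
local ring `Q`, and a lift `γ' : Q → R` of `γ` which is a local homomorphism. -/
theorem result (O F : Type) [CommRing O] [IsDomain O] [IsRegularRing O] [Algebra.FiniteType ℤ O] [Field F]
    [Algebra O F] (n : ℕ) (hn : 0 < n) (y : Fin n → F) (hy : ∀ i, y i ≠ 0) :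
    ∃ M : ℕ → Submodule O F, M 0 = Submodule.span O (Set.range y) ∧
      (∀ k, (M k).FG ∧ (singularPoints k (M k)).Finite ∧ IsBlowUp (singularPoints k (M k)) (M k) (M (k + 1))) ∧
      ∀ (L : Type) [Field L] (R : ValuationSubring L), Finite (ResidueField R) → ∀ (i : Fin n)
        (γ : chart O (Submodule.span O (Set.range y)) (y i) →+* R)
        (δ : chart O (Submodule.span O (Set.range y)) (y i)), IsJacobianMinor O y i (δ : F) →
        ∀ e : ℕ, γ δ ∉ maximalIdeal R ^ (e + 1) → ∀ k, Nat.card (ResidueField R) + e ≤ k →
        ∃ (V : ValuationSubring F) (Q : Subring F), Contains O V ∧ IsLocalRingAt V (M k) Q ∧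
          IsRegularLocalRing Q ∧
          ∃ (h : chart O (Submodule.span O (Set.range y)) (y i) ≤ Q) (γ' : Q →+* R),
            (∀ b : chart O (Submodule.span O (Set.range y)) (y i), γ' ⟨b, h b.2⟩ = γ b) ∧
              ∀ b : Q, IsUnit (γ' b) → IsUnit b := by
  obtain ⟨M, h0, hk, hR⟩ := Pool.Agent.Run7.h275.AP.main (O := O) hn y hy
  refine ⟨M, h0, fun k => ?_, hR⟩
  obtain ⟨h1, h2, h3⟩ := hk k
  rw [singularPoints_eq]
  refine ⟨h1, h2, fun V hV Q hQ => ?_⟩
  rw [qt_eq']
  exact h3 V hV Q hQ

end Pool.Agent.Results.MP_4d1008_ag.TowerOfPointBlowUps
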